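import Mathlib

namespace Pool.Agent.Results.MP_e47ea7_co.Matching

open SimpleGraph

section
variable {W V : Type} (H : SimpleGraph W)

/-- the copy φ of H is rainbow for χ -/
def Rainbow {G : SimpleGraph V} (φ : H.Copy G) (χ : Sym2 V → ℕ) : Prop :=
  Set.InjOn (fun e => χ (e.map φ)) H.edgeSet

/-- weakly H-rainbow saturated; ρ orders the missing edges, c extends χ by distinct colours -/
def WeakSat (G : SimpleGraph V) (χ : Sym2 V → ℕ) : Prop :=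
  ∃ ρ : Sym2 V → ℕ, Set.InjOn ρ Gᶜ.edgeSet ∧
    ∀ c : Sym2 V → ℕ, Set.EqOn c χ G.edgeSet → Set.InjOn c Gᶜ.edgeSet → ∀ e ∈ Gᶜ.edgeSet,
      ∃ φ : H.Copy (G ⊔ fromEdgeSet {f ∈ Gᶜ.edgeSet | ρ f ≤ ρ e}),
        Rainbow H φ c ∧ ∃ f ∈ H.edgeSet, f.map φ = e

noncomputable def rwsat (n : ℕ) : ℕ∞ :=
  ⨅ (G : SimpleGraph (Fin n)) (χ) (_ : WeakSat H G χ), G.edgeSet.encard

noncomputable def rwsatFree (n : ℕ) : ℕ∞ :=
  ⨅ (G : SimpleGraph (Fin n)) (χ) (_ : WeakSat H G χ ∧ ¬ ∃ φ : H.Copy G, Rainbow H φ χ),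
    G.edgeSet.encard
end

def H : SimpleGraph (Fin 6) := fromEdgeSet {s(0, 1), s(2, 3), s(4, 5)}

lemma eH : H.edgeSet = {s(0, 1), s(2, 3), s(4, 5)} := by
  rw [H, edgeSet_fromEdgeSet, sdiff_eq_left, Set.disjoint_left]
  rintro _ (rfl | rfl | rfl) <;> simp

lemma mk {V : Type} (G : SimpleGraph V) (c : Sym2 V → ℕ) (v : Fin 6 → V) (hv : v.Injective)
    (h1 : G.Adj (v 0) (v 1)) (h2 : G.Adj (v 2) (v 3)) (h3 : G.Adj (v 4) (v 5))
    (c1 : c s(v 0, v 1) ≠ c s(v 2, v 3)) (c2 : c s(v 0, v 1) ≠ c s(v 4, v 5))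
    (c3 : c s(v 2, v 3) ≠ c s(v 4, v 5)) :
    ∃ φ : H.Copy G, Rainbow H φ c ∧ ∃ f ∈ H.edgeSet, f.map φ = s(v 0, v 1) := by
  refine ⟨⟨⟨v, fun {a b} h => ?_⟩, hv⟩, ?_, s(0, 1), by simp [eH], rfl⟩
  · rw [← mem_edgeSet, eH] at h
    have : Sym2.map v s(a, b) ∈ G.edgeSet := by rcases h with h | h | h <;> rw [h] <;> assumption
    exact this
  · show Set.InjOn (fun e => c (e.map v)) H.edgeSet
    rw [eH]
    rintro _ (rfl | rfl | rfl) _ (rfl | rfl | rfl) h <;>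
      first | rfl | exact absurd h ‹_› | exact absurd h.symm ‹_›

def G₀ : SimpleGraph (Fin 10) where
  Adj a b := a ≠ b ∧ a.val / 2 = b.val / 2 ∧ a.val < 6
  symm := ⟨fun a b h => ⟨h.1.symm, h.2.1.symm, by omega⟩⟩
  loopless := ⟨fun _ h => h.1 rfl⟩

instance : DecidableRel G₀.Adj := fun _ _ => inferInstanceAs (Decidable (_ ∧ _ ∧ _))

def r (a b : Fin 10) : ℕ := 10 * min a.val b.val + max a.val b.val +
  if 6 ≤ a.val ∧ 6 ≤ b.val then 0 else if a.val < 6 ∧ b.val < 6 then 100 else 200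

lemma rs : ∀ a b, r a b = r b a := by decide +kernel

lemma ri : ∀ a b x y, r a b = r x y → (a = x ∧ b = y) ∨ (a = y ∧ b = x) := by decide +kernel

lemma ex : ∀ a b, G₀ᶜ.Adj a b → (6 ≤ a ∧ 6 ≤ b) ∨ ∃ x y, G₀ᶜ.Adj x y ∧ r x y ≤ r a b ∧
    ∃ z w, G₀ᶜ.Adj z w ∧ r z w ≤ r a b ∧ Function.Injective ![a, b, x, y, z, w] := by
  decide +kernel

lemma up : WeakSat H G₀ (Sym2.lift ⟨fun a b => (a.val + b.val) / 4, fun _ _ => by simp only [add_comm]⟩) := by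
  refine ⟨Sym2.lift ⟨r, rs⟩, ?_, fun c h1 h2 => ?_⟩
  · rintro ⟨a, b⟩ - ⟨x, y⟩ - h
    exact Sym2.eq_iff.mpr (ri a b x y h)
  rintro ⟨a, b⟩ (hab : G₀ᶜ.Adj a b)
  have new : ∀ x y, G₀ᶜ.Adj x y → r x y ≤ r a b → (G₀ ⊔ fromEdgeSet
      {f ∈ G₀ᶜ.edgeSet | Sym2.lift ⟨r, rs⟩ f ≤ Sym2.lift ⟨r, rs⟩ s(a, b)}).Adj x y :=
    fun x y h e => Or.inr ⟨⟨h, e⟩, h.ne⟩
  rcases ex a b hab with ⟨ha, hb⟩ | ⟨x, y, h3, h4, z, w, h5, h6, hv⟩
  · have old : ∀ x y z w, G₀.Adj x y → G₀.Adj z w → (x.val + y.val) / 4 ≠ (z.val + w.val) / 4 →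
        c s(a, b) ≠ (x.val + y.val) / 4 → c s(a, b) ≠ (z.val + w.val) / 4 →
        Function.Injective ![a, b, x, y, z, w] → _ := fun x y z w p q e1 e2 e3 hv =>
      mk _ c _ hv (new a b hab le_rfl) (Or.inl p) (Or.inl q) (e2 ∘ (·.trans (h1 p)))
        (e3 ∘ (·.trans (h1 q))) fun e => e1 ((h1 p).symm.trans (e.trans (h1 q)))
    have hi : Function.Injective ![a, b, 0, 1, 2, 3] ∧ Function.Injective ![a, b, 0, 1, 4, 5] ∧
        Function.Injective ![a, b, 2, 3, 4, 5] := by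
      have := hab.ne
      clear old new hab; revert a b; decide +kernel
    by_cases e0 : c s(a, b) = 0
    · exact old 2 3 4 5 (by decide) (by decide) (by decide) (by simp [e0]) (by simp [e0]) hi.2.2
    by_cases e1 : c s(a, b) = 1
    · exact old 0 1 4 5 (by decide) (by decide) (by decide) (by simp [e1]) (by simp [e1]) hi.2.1
    · exact old 0 1 2 3 (by decide) (by decide) (by decide) e0 e1 hi.1
  · have d : ∀ i j k l : Fin 6, i ≠ k → i ≠ l → s(![a, b, x, y, z, w] i, ![a, b, x, y, z, w] j) ≠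
        s(![a, b, x, y, z, w] k, ![a, b, x, y, z, w] l) := fun i j k l p q e => by
      rcases Sym2.eq_iff.mp e with e | e
      exacts [p (hv e.1), q (hv e.1)]
    exact mk _ c _ hv (new a b hab le_rfl) (new x y h3 h4) (new z w h5 h6)
      (fun e => d 0 1 2 3 (by decide) (by decide) (h2 hab h3 e))
      (fun e => d 0 1 4 5 (by decide) (by decide) (h2 hab h5 e))
      fun e => d 2 3 4 5 (by decide) (by decide) (h2 h3 h5 e)

lemma pair (G : SimpleGraph (Fin 10)) (χ) (h : WeakSat H G χ) (hne : Gᶜ.edgeSet.Nonempty) (γ : ℕ) :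
    ∃ f ∈ G.edgeSet, ∃ g ∈ G.edgeSet, (∀ v ∈ f, v ∉ g) ∧ χ f ≠ χ g ∧ χ f ≠ γ ∧ χ g ≠ γ := by
  classical
  obtain ⟨ρ, hρ, h⟩ := h
  obtain ⟨e, he, hm⟩ := Set.exists_min_image _ ρ (Set.toFinite _) hne
  have nG : ∀ f ∈ Gᶜ.edgeSet, f ∉ G.edgeSet := by rintro ⟨a, b⟩ h; exact h.2
  let c : Sym2 (Fin 10) → ℕ := fun f => if f ∈ G.edgeSet then χ f else
    if f = e then γ else γ + 1 + (Fintype.equivFin _ f : ℕ)
  obtain ⟨φ, hφ, f, hf, fe⟩ := h c (fun f hf => if_pos hf) (fun f hf g hg e => by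
    simp only [c, nG f hf, nG g hg, if_false] at e
    split_ifs at e with h1 h2
    · rw [h1, h2]
    · omega
    · omega
    · exact (Fintype.equivFin _).injective (Fin.ext (by omega))) e he
  have ce : c (f.map φ) = γ := by rw [fe]; simp [c, nG _ he]
  have old : ∀ g ∈ H.edgeSet, g ≠ f → g.map φ ∈ G.edgeSet ∧ χ (g.map φ) = c (g.map φ) ∧
      c (g.map φ) ≠ γ := fun g hg ne => by
    have h1 : c (g.map φ) ≠ c (f.map φ) := fun e => ne (hφ hg hf e)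
    have h2 := φ.toHom.map_mem_edgeSet hg
    rw [edgeSet_sup, edgeSet_fromEdgeSet] at h2
    rcases h2 with h2 | h2
    · exact ⟨h2, (if_pos h2).symm, ce ▸ h1⟩
    · exact absurd (congrArg c (hρ h2.1.1 he (h2.1.2.antisymm (hm _ h2.1.1))))
        fun t => h1 (t.trans (congrArg c fe).symm)
  obtain ⟨p, hp, q, hq, h1, h2, h3⟩ : ∃ p ∈ H.edgeSet, ∃ q ∈ H.edgeSet, p ≠ f ∧ q ≠ f ∧
      ∀ v, v ∈ p → v ∉ q := by
    rw [eH] at hf ⊢
    rcases hf with rfl | rfl | rfl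
    · exact ⟨s(2, 3), by simp, s(4, 5), by simp, by decide⟩
    · exact ⟨s(0, 1), by simp, s(4, 5), by simp, by decide⟩
    · exact ⟨s(0, 1), by simp, s(2, 3), by simp, by decide⟩
  obtain ⟨a1, a2, a3⟩ := old p hp h1
  obtain ⟨b1, b2, b3⟩ := old q hq h2
  refine ⟨_, a1, _, b1, fun v hv hw => ?_, fun e => ?_, a2 ▸ a3, b2 ▸ b3⟩
  · obtain ⟨x, hx, rfl⟩ := Sym2.mem_map.mp hv
    obtain ⟨y, hy, e⟩ := Sym2.mem_map.mp hw
    exact h3 x hx (φ.injective e ▸ hy)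
  · obtain rfl := hφ hp hq (a2.symm.trans (e.trans b2))
    exact h3 _ p.out_fst_mem p.out_fst_mem

lemma down (G : SimpleGraph (Fin 10)) (χ) (h : WeakSat H G χ) (h3 : G.edgeSet.encard ≤ 3) :
    ∃ φ : H.Copy G, Rainbow H φ χ := by
  have P := pair G χ h (Set.nonempty_iff_ne_empty.mpr fun e => by
    rw [edgeSet_eq_empty, compl_eq_bot] at e
    subst e
    have : ({s(0, 1), s(0, 2), s(0, 3), s(0, 4)} : Finset (Sym2 (Fin 10))).card ≤ (3 : ℕ∞) := by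
      rw [← Set.encard_coe_eq_coe_finsetCard]
      exact (Set.encard_le_encard (by intro x hx; simp at hx; rcases hx with h | h | h | h <;>
        simp [h])).trans h3
    exact absurd this (by decide))
  obtain ⟨f, hf, g, hg, d1, n1, -⟩ := P 0
  obtain ⟨k, hk, n2, n3⟩ : ∃ k ∈ G.edgeSet, χ k ≠ χ f ∧ χ k ≠ χ g := by
    obtain ⟨p, hp, q, hq, -, a, b, c⟩ := P (χ f)
    by_cases e : χ p = χ g
    exacts [⟨q, hq, c, e ▸ a.symm⟩, ⟨p, hp, b, e⟩]
  have E : {f, g, k} = G.edgeSet := (Set.toFinite _).eq_of_subset_of_encard_le'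
    (by rintro _ (rfl | rfl | rfl) <;> assumption) (h3.trans (Set.encard_eq_three.mpr
      ⟨f, g, k, by grind, by grind, by grind, rfl⟩).ge)
  have d2 : ∀ v ∈ g, v ∉ k := by
    obtain ⟨p, hp, q, hq, d, a, b, c⟩ := P (χ f)
    rw [← E] at hp hq
    grind
  have d3 : ∀ v ∈ f, v ∉ k := by
    obtain ⟨p, hp, q, hq, d, a, b, c⟩ := P (χ g)
    rw [← E] at hp hq
    grind
  clear E
  induction f with | _ a b
  induction g with | _ c d
  induction k with | _ x y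
  have := hf.ne; have := hg.ne; have := hk.ne
  simp only [Sym2.mem_iff] at d1 d2 d3
  obtain ⟨φ, h, -⟩ := mk G χ ![a, b, c, d, x, y] (by
    intro i j; fin_cases i <;> fin_cases j <;> simp <;> grind) hf hg hk n1 n2.symm n3.symm
  exact ⟨φ, h⟩

/-- For H = 3K2 and n = 10 the two weak rainbow saturation numbers differ. -/
theorem result : ∃ H : SimpleGraph (Fin 6), H ≠ ⊥ ∧ rwsat H 10 < rwsatFree H 10 := by
  refine ⟨H, fun e => ?_, lt_of_le_of_lt (b := 3) ?_ ?_⟩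
  · have := eH
    rw [e, edgeSet_bot] at this
    exact (Set.insert_nonempty _ _).ne_empty this.symm
  · refine iInf_le_of_le G₀ (iInf_le_of_le _ (iInf_le_of_le up ?_))
    rw [← coe_edgeFinset, Set.encard_coe_eq_coe_finsetCard, show G₀.edgeFinset.card = 3 by decide]
    rfl
  · refine lt_of_lt_of_le (b := 4) (by decide) (le_iInf fun G => le_iInf fun χ => le_iInf fun h => ?_)
    exact Order.add_one_le_of_lt (not_le.mp fun h3 => h.2 (down G χ h.1 h3))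

end Pool.Agent.Results.MP_e47ea7_co.Matching
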